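import Mathlib

set_option autoImplicit false

open Matrix

namespace Pool.Agent.Results.MP_336050_an.No

theorem common_eig {V ι : Type} [AddCommGroup V] [Module ℂ V] [FiniteDimensional ℂ V] [Nontrivial V]
    (A : ι → Module.End ℂ V) (hA : ∀ i j, A i * A j = A j * A i) :
    ∃ v : V, v ≠ 0 ∧ ∀ i, ∃ c : ℂ, A i v = c • v := by
  obtain ⟨W, hW, hmin⟩ := (InvImage.wf (fun W : Submodule ℂ V => Module.finrank ℂ W) Nat.lt_wfRel.wf).has_min
    {W | W ≠ ⊥ ∧ ∀ i, ∀ x ∈ W, A i x ∈ W} ⟨⊤, top_ne_bot, fun _ _ _ => trivial⟩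
  obtain ⟨v, hv, hv0⟩ := (Submodule.ne_bot_iff W).1 hW.1
  refine ⟨v, hv0, fun i => ?_⟩
  haveI : Nontrivial W := Submodule.nontrivial_iff_ne_bot.2 hW.1
  obtain ⟨c, hc⟩ := Module.End.exists_eigenvalue ((A i).restrict (hW.2 i))
  obtain ⟨w, hw⟩ := hc.exists_hasEigenvector
  have hw1 : A i w = c • (w : V) := congrArg Subtype.val hw.apply_eq_smul
  set W' : Submodule ℂ V := W ⊓ (A i).eigenspace c with hW'
  have h1 : W' ≠ ⊥ := (Submodule.ne_bot_iff W').2
    ⟨w, ⟨w.2, Module.End.mem_eigenspace_iff.2 hw1⟩, fun h => hw.2 (Subtype.ext h)⟩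
  have h2 : ∀ j, ∀ x ∈ W', A j x ∈ W' := by
    intro j x hx
    refine ⟨hW.2 j x hx.1, Module.End.mem_eigenspace_iff.2 ?_⟩
    have := Module.End.mem_eigenspace_iff.1 hx.2
    rw [← Module.End.mul_apply, hA, Module.End.mul_apply, this, map_smul]
  have h3 : W' = W := Submodule.eq_of_le_of_finrank_le inf_le_left (not_lt.1 (hmin W' ⟨h1, h2⟩))
  exact ⟨c, Module.End.mem_eigenspace_iff.1 (h3.symm ▸ hv : v ∈ W').2⟩

theorem result (n : ℕ) (hn : 3 ≤ n) (A : Fin n → Matrix (Fin n) (Fin n) ℝ)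
    (hA : ∀ i j, A i * A j = A j * A i) :
    ∃ x : Fin n → ℝ, x ≠ 0 ∧
      ¬ Dense {y | ∃ k : Fin n → ℕ, y = (List.ofFn fun i => A i ^ k i).prod *ᵥ x} := by
  haveI : Nonempty (Fin n) := ⟨⟨0, by omega⟩⟩
  obtain ⟨v, hv0, hv⟩ := common_eig (V := Fin n → ℂ)
    (fun i => Matrix.toLin' ((A i).map Complex.ofRealHom)) (fun i j => by
      rw [Module.End.mul_eq_comp, Module.End.mul_eq_comp, ← Matrix.toLin'_mul, ← Matrix.toLin'_mul, ← Matrix.map_mul, ← Matrix.map_mul, hA])
  set a : Fin n → ℝ := fun k => (v k).re with ha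
  set b : Fin n → ℝ := fun k => (v k).im with hb
  set P : Submodule ℝ (Fin n → ℝ) := Submodule.span ℝ {a, b} with hP
  have hinv : ∀ i, ∀ x ∈ P, A i *ᵥ x ∈ P := by
    intro i x hx
    obtain ⟨c, hc⟩ := hv i
    have e1 : A i *ᵥ a = c.re • a - c.im • b := by
      funext k
      have := congrArg Complex.re (congrFun hc k)
      simpa [Matrix.mulVec, dotProduct, ha, hb] using this
    have e2 : A i *ᵥ b = c.re • b + c.im • a := by
      funext k
      have := congrArg Complex.im (congrFun hc k)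
      simpa [Matrix.mulVec, dotProduct, ha, hb] using this
    have ma : a ∈ P := Submodule.subset_span (by simp)
    have mb : b ∈ P := Submodule.subset_span (by simp)
    obtain ⟨s, t, rfl⟩ := Submodule.mem_span_pair.1 hx
    rw [Matrix.mulVec_add, Matrix.mulVec_smul, Matrix.mulVec_smul, e1, e2]
    exact P.add_mem (P.smul_mem _ (P.sub_mem (P.smul_mem _ ma) (P.smul_mem _ mb)))
      (P.smul_mem _ (P.add_mem (P.smul_mem _ mb) (P.smul_mem _ ma)))
  have hpow : ∀ i m, ∀ x ∈ P, (A i ^ m) *ᵥ x ∈ P := by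
    intro i m
    induction m with
    | zero => intro x hx; simpa using hx
    | succ m ih => intro x hx; rw [pow_succ, ← Matrix.mulVec_mulVec]; exact ih _ (hinv i x hx)
  have hprod : ∀ L : List (Matrix (Fin n) (Fin n) ℝ), (∀ M ∈ L, ∀ x ∈ P, M *ᵥ x ∈ P) →
      ∀ x ∈ P, L.prod *ᵥ x ∈ P := by
    intro L
    induction L with
    | nil => intro _ x hx; simpa using hx
    | cons M L ih =>
      intro h x hx
      rw [List.prod_cons, ← Matrix.mulVec_mulVec]
      exact h M (by simp) _ (ih (fun M' hM' => h M' (by simp [hM'])) x hx)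
  have hne : P ≠ ⊥ := by
    intro h
    apply hv0
    have h1 : a = 0 := (Submodule.eq_bot_iff P).1 h a (Submodule.subset_span (by simp))
    have h2 : b = 0 := (Submodule.eq_bot_iff P).1 h b (Submodule.subset_span (by simp))
    funext k
    exact Complex.ext (congrFun h1 k) (congrFun h2 k)
  obtain ⟨x, hx, hx0⟩ := (Submodule.ne_bot_iff P).1 hne
  refine ⟨x, hx0, fun hd => ?_⟩
  have hd2 : Dense (P : Set (Fin n → ℝ)) := hd.mono (by
    rintro _ ⟨k, rfl⟩
    refine hprod _ (fun M hM => ?_) x hx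
    obtain ⟨i, rfl⟩ := List.mem_ofFn.1 hM
    exact hpow i _)
  have htop : P = ⊤ := by
    have := P.closed_of_finiteDimensional.closure_eq
    rw [hd2.closure_eq] at this
    exact SetLike.coe_injective this.symm
  have h1 : Module.finrank ℝ P ≤ 2 := by
    classical
    have := finrank_span_finset_le_card (R := ℝ) ({a, b} : Finset (Fin n → ℝ))
    rw [Set.finrank, Finset.coe_pair] at this
    exact this.trans Finset.card_le_two
  rw [htop, finrank_top, Module.finrank_fin_fun] at h1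
  omega

end Pool.Agent.Results.MP_336050_an.No
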